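import Pool.Agent.W580.SH.StmB

/-!
# SH-NOQUAD: at most three pairs in a tie direction
-/

set_option autoImplicit false

namespace Pool.Agent.W214.SH

open Finset Pool.Agent.W580.SH

theorem pairs_comp {R : Type} {A : Finset (R → ℤ)} {J : Finset R} {l : R}
    {u v : Fin 4 → (R → ℤ)} (h : Pairs A J l 4 u v) (ι : Fin 3 → Fin 4)
    (hι : Function.Injective ι) : Pairs A J l 3 (fun i => u (ι i)) (fun i => v (ι i)) :=
  ⟨fun i => h.1 (ι i), fun i i' hii => h.2 (ι i) (ι i') fun hc => hii (hι hc)⟩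

theorem main (h1 : S_ONE) (h2 : S_S3) : S_NOQUAD := by
  intro R _ _ I A O θ hB J hJ l hl hO
  rintro ⟨u, v, hP⟩
  -- a nonconstant row has a unique 1
  have key1 : ∀ j ∈ J, j ≠ l → ∀ i i', u i j = 1 → u i' j = 0 →
      O j = θ ∧ ∀ b, b ≠ i → u b j = 0 := by
    intro j hj hjl i i' hi hi'
    have hii : i ≠ i' := by
      rintro rfl
      rw [hi] at hi'
      norm_num at hi'
    have trip : ∀ b, b ≠ i → b ≠ i' → O j = θ ∧ u b j = 0 := by
      intro b hbi hbi'
      have hinj : Function.Injective ![i, i', b] := by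
        intro x y hxy
        fin_cases x <;> fin_cases y <;> simp_all
      have h3 := h1 R I A O θ hB J hJ l hl hO _ _ (pairs_comp hP ![i, i', b] hinj) j hj hjl
        ⟨0, 1, by
          simp only [Matrix.cons_val_zero, Matrix.cons_val_one]
          rw [hi, hi']; norm_num⟩
      obtain ⟨h4, a, ha1, ha2⟩ := h3
      refine ⟨h4, ?_⟩
      have ha0 : a = 0 := by
        by_contra hc
        have := ha2 0 (fun h => hc h.symm)
        simp only [Matrix.cons_val_zero] at this
        rw [hi] at this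
        norm_num at this
      have := ha2 2 (by rw [ha0]; decide)
      simpa using this
    have hex : ∀ i i' : Fin 4, ∃ b : Fin 4, b ≠ i ∧ b ≠ i' := by decide
    obtain ⟨b, hb, hb'⟩ := hex i i'
    refine ⟨(trip b hb hb').1, fun c hc => ?_⟩
    by_cases hci : c = i'
    · rw [hci]; exact hi'
    · exact (trip c hc hci).2
  have bin : ∀ i j, u i j = 0 ∨ u i j = 1 := fun i j => hB.bin _ (hP.1 i).1 j
  have key2 : ∀ a b, a ≠ b → (∃ j ∈ J, j ≠ l ∧ O j = θ ∧ u a j = 1 ∧ ∀ c, c ≠ a → u c j = 0) ∨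
      (∃ j ∈ J, j ≠ l ∧ O j = θ ∧ u b j = 1 ∧ ∀ c, c ≠ b → u c j = 0) := by
    intro a b hab
    obtain ⟨j, hj, hjl, hne⟩ := hP.2 a b hab
    rcases bin a j with ha | ha
    · rcases bin b j with hb | hb
      · rw [ha, hb] at hne
        exact absurd rfl hne
      · right
        obtain ⟨h3, h4⟩ := key1 j hj hjl b a hb ha
        exact ⟨j, hj, hjl, h3, hb, h4⟩
    · rcases bin b j with hb | hb
      · left
        obtain ⟨h3, h4⟩ := key1 j hj hjl a b ha hb
        exact ⟨j, hj, hjl, h3, ha, h4⟩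
      · rw [ha, hb] at hne
        exact absurd rfl hne
  obtain ⟨z0, hz0⟩ : ∃ z0 : Fin 4, ∀ a, a ≠ z0 →
      ∃ j ∈ J, j ≠ l ∧ O j = θ ∧ u a j = 1 ∧ ∀ c, c ≠ a → u c j = 0 := by
    by_cases hall : ∀ a, ∃ j ∈ J, j ≠ l ∧ O j = θ ∧ u a j = 1 ∧ ∀ c, c ≠ a → u c j = 0
    · exact ⟨0, fun a _ => hall a⟩
    · push Not at hall
      obtain ⟨z, hz⟩ := hall
      refine ⟨z, fun a ha => ?_⟩
      rcases key2 a z ha with h | h
      · exact h
      · obtain ⟨j, hj, hjl, h3, h4, h5⟩ := h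
        obtain ⟨c, hc, hc'⟩ := hz j hj hjl h3 h4
        exact absurd (h5 c hc) hc'
  have hz : ∀ i : Fin 3, ∃ j ∈ J, j ≠ l ∧ O j = θ ∧ u (z0.succAbove i) j = 1 ∧
      ∀ c, c ≠ z0.succAbove i → u c j = 0 := fun i => hz0 _ (Fin.succAbove_ne z0 i)
  choose r hrJ hrl hrO hr1 hr0 using hz
  have hd : ∀ i i' : Fin 3, i ≠ i' → u (z0.succAbove i) (r i') = 0 := fun i i' h =>
    hr0 i' _ fun hc => h (Fin.succAbove_right_injective hc)
  have hu0 : ∀ i, u z0 (r i) = 0 := fun i => hr0 i _ (Fin.succAbove_ne z0 i).symm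
  have hv0 : ∀ i, v z0 (r i) = 0 := fun i => by
    rw [← (hP.1 z0).2.2.2.2 (r i) (hrJ i) (hrl i)]
    exact hu0 i
  have hul : ∀ i, u i l = 1 := fun i => (hP.1 i).2.2.1
  have hvl : v z0 l = 0 := (hP.1 z0).2.2.2.1
  refine h2 R I A O θ hB ![l, r 0, r 1, r 2] ?_ ![u (z0.succAbove 0), u (z0.succAbove 1),
    u (z0.succAbove 2), u z0, v z0] ?_ ?_ ?_ ?_ ?_ ?_
  · intro a
    fin_cases a
    · exact hO
    · exact hrO 0
    · exact hrO 1
    · exact hrO 2
  · intro b
    fin_cases b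
    · exact (hP.1 _).1
    · exact (hP.1 _).1
    · exact (hP.1 _).1
    · exact (hP.1 _).1
    · exact (hP.1 _).2.1
  · intro a
    fin_cases a
    · exact hul _
    · exact hr1 0
    · exact hd 0 1 (by decide)
    · exact hd 0 2 (by decide)
  · intro a
    fin_cases a
    · exact hul _
    · exact hd 1 0 (by decide)
    · exact hr1 1
    · exact hd 1 2 (by decide)
  · intro a
    fin_cases a
    · exact hul _
    · exact hd 2 0 (by decide)
    · exact hd 2 1 (by decide)
    · exact hr1 2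
  · intro a
    fin_cases a
    · exact hul _
    · exact hu0 0
    · exact hu0 1
    · exact hu0 2
  · intro a
    fin_cases a
    · exact hvl
    · exact hv0 0
    · exact hv0 1
    · exact hv0 2

end Pool.Agent.W214.SH
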